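import Pool.Agent.H78.STN.Stmts3

/-! Row CHB of the board sto (backup): the number of descending steps. -/

set_option autoImplicit false

open Finset Pool.Agent.H40.COL

namespace Pool.STN.H14

lemma chb_dn (x : ℕ) (h : x % 3 = 0) : 3 * F x = 2 * x ∧ 2 ∣ F x := by
  unfold F
  rw [if_pos h]
  constructor
  · omega
  · exact ⟨x / 3, rfl⟩

lemma chb_up (x : ℕ) (hx : 2 ≤ x) (h : x % 3 ≠ 0) : x < F x := by
  unfold F
  rw [if_neg h]
  split_ifs with h2 <;> omega

lemma chb_log : Real.log 3 - Real.log 2 ≤ 3 / 5 * Real.log 2 := by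
  have h : Real.log ((3 : ℝ) ^ 5) ≤ Real.log ((2 : ℝ) ^ 8) := by
    refine Real.log_le_log (by norm_num) (by norm_num)
  rw [Real.log_pow, Real.log_pow] at h
  push_cast at h
  linarith

/-- the state during the induction -/
def chbP (m0 k j : ℕ) : Prop :=
  (F^[j] m0 % 3 ≠ 0 →
    Real.log (F^[j] m0) ≤ ((8 : ℝ) / 5) ^ (∑ i ∈ Ico j k,
        if F^[i] m0 % 3 = 0 ∧ F^[i + 1] m0 % 3 ≠ 0 then 1 else 0) * Real.log m0 ∧
    ((∑ i ∈ Ico j k, if F^[i] m0 % 3 = 0 then 1 else 0 : ℕ) : ℝ) * Real.log 2 ≤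
      (∑ i ∈ range (∑ i ∈ Ico j k,
        if F^[i] m0 % 3 = 0 ∧ F^[i + 1] m0 % 3 ≠ 0 then 1 else 0), ((8 : ℝ) / 5) ^ i) *
          Real.log m0) ∧
  (F^[j] m0 % 3 = 0 → ∃ b w L D : ℕ, 2 ^ b ∣ w ∧ 0 < w ∧ 2 ^ b * F^[j] m0 = 3 ^ b * w ∧
    (∑ i ∈ Ico j k, if F^[i] m0 % 3 = 0 ∧ F^[i + 1] m0 % 3 ≠ 0 then 1 else 0) = L + 1 ∧
    (∑ i ∈ Ico j k, if F^[i] m0 % 3 = 0 then 1 else 0) = D + b ∧
    Real.log w ≤ ((8 : ℝ) / 5) ^ L * Real.log m0 ∧
    (D : ℝ) * Real.log 2 ≤ (∑ i ∈ range L, ((8 : ℝ) / 5) ^ i) * Real.log m0)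

lemma chb_ind (m0 k : ℕ) (hm0 : 2 ≤ m0) (hper : F^[k] m0 = m0) (hmin : ∀ j, m0 ≤ F^[j] m0) :
    ∀ n, n ≤ k → chbP m0 k (k - n) := by
  have hup0 : m0 % 3 ≠ 0 := by
    intro h
    have h1 := (chb_dn m0 h).1
    have h2 := hmin 1
    simp only [Function.iterate_one] at h2
    omega
  have hl2 : 0 < Real.log 2 := Real.log_pos (by norm_num)
  intro n
  induction n with
  | zero =>
    intro _
    rw [Nat.sub_zero]
    refine ⟨fun _ => ?_, fun h => ?_⟩
    · rw [hper]
      simp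
    · rw [hper] at h
      exact absurd h hup0
  | succ n ih =>
    intro hn
    have ih' := ih (by omega)
    obtain ⟨j, hj⟩ : ∃ j, j = k - (n + 1) := ⟨_, rfl⟩
    have hj1 : k - n = j + 1 := by omega
    have hjk : j < k := by omega
    rw [hj1] at ih'
    rw [← hj]
    unfold chbP
    rw [sum_eq_sum_Ico_succ_bot hjk, sum_eq_sum_Ico_succ_bot hjk]
    obtain ⟨ihu, ihd⟩ := ih'
    have hsucc : F^[j + 1] m0 = F (F^[j] m0) := Function.iterate_succ_apply' F j m0
    have hx2 : 2 ≤ F^[j] m0 := hm0.trans (hmin j)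
    have hy2 : 2 ≤ F^[j + 1] m0 := hm0.trans (hmin (j + 1))
    refine ⟨fun hu => ?_, fun hd => ?_⟩
    · rw [if_neg (by tauto), if_neg hu, zero_add, zero_add]
      have hlt : F^[j] m0 < F^[j + 1] m0 := by
        rw [hsucc]
        exact chb_up _ hx2 hu
      have hlog : Real.log (F^[j] m0) ≤ Real.log (F^[j + 1] m0) := by
        refine Real.log_le_log (by exact_mod_cast (show 0 < F^[j] m0 by omega)) ?_
        exact_mod_cast hlt.le
      by_cases h' : F^[j + 1] m0 % 3 = 0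
      · obtain ⟨b, w, L, D, hbw, hw, hbx, hL, hD, hlw, hDl⟩ := ihd h'
        rw [hL, hD]
        have hwr : (0 : ℝ) < w := by exact_mod_cast hw
        have h2b : (b : ℝ) * Real.log 2 ≤ Real.log w := by
          rw [← Real.log_pow]
          refine Real.log_le_log (by positivity) ?_
          exact_mod_cast Nat.le_of_dvd hw hbw
        have hx1 : Real.log (F^[j + 1] m0) + b * Real.log 2 = b * Real.log 3 + Real.log w := by
          have h5 : ((2 : ℝ) ^ b) * (F^[j + 1] m0 : ℕ) = 3 ^ b * (w : ℝ) := by exact_mod_cast hbx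
          have h6 := congrArg Real.log h5
          have h7 : (0 : ℝ) < (F^[j + 1] m0 : ℕ) := by exact_mod_cast (show 0 < F^[j + 1] m0 by omega)
          rw [Real.log_mul (by positivity) h7.ne', Real.log_mul (by positivity) hwr.ne',
            Real.log_pow, Real.log_pow] at h6
          linarith
        have hb3 : (b : ℝ) * (Real.log 3 - Real.log 2) ≤ b * (3 / 5 * Real.log 2) :=
          mul_le_mul_of_nonneg_left chb_log (Nat.cast_nonneg b)
        constructor
        · rw [pow_succ]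
          nlinarith
        · rw [sum_range_succ]
          push_cast
          nlinarith
      · obtain ⟨h1, h2⟩ := ihu h'
        exact ⟨hlog.trans h1, h2⟩
    · have h3 := chb_dn (F^[j] m0) hd
      rw [← hsucc] at h3
      obtain ⟨h3, h4⟩ := h3
      by_cases h' : F^[j + 1] m0 % 3 = 0
      · obtain ⟨b, w, L, D, hbw, hw, hbx, hL, hD, hlw, hDl⟩ := ihd h'
        rw [if_neg (by tauto), if_pos hd, zero_add, hL, hD]
        refine ⟨b + 1, w, L, D, ?_, hw, ?_, rfl, by ring, hlw, hDl⟩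
        · have h5 : 2 ^ (b + 1) ∣ 3 ^ b * w := by
            rw [← hbx, pow_succ]
            exact Nat.mul_dvd_mul_left _ h4
          exact (Nat.Coprime.pow (b + 1) b (by norm_num : Nat.Coprime 2 3)).dvd_of_dvd_mul_left h5
        · rw [pow_succ, pow_succ]
          calc 2 ^ b * 2 * F^[j] m0 = 2 ^ b * (2 * F^[j] m0) := by ring
            _ = 2 ^ b * (3 * F^[j + 1] m0) := by rw [h3]
            _ = 3 * (2 ^ b * F^[j + 1] m0) := by ring
            _ = 3 * (3 ^ b * w) := by rw [hbx]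
            _ = 3 ^ b * 3 * w := by ring
      · obtain ⟨h1, h2⟩ := ihu h'
        rw [if_pos ⟨hd, h'⟩, if_pos hd]
        refine ⟨1, F^[j + 1] m0, _, _, ?_, by omega, ?_, add_comm _ _, add_comm _ _, h1, h2⟩
        · simpa using h4
        · rw [pow_one, pow_one, h3]

lemma chb_lm (m k m0 : ℕ) (hm0 : 2 ≤ m0) (hmin : ∀ j, m0 ≤ F^[j] m) :
    lm F m k = ((range k).filter fun j =>
      F^[j] m % 3 = 0 ∧ F^[j + 1] m % 3 ≠ 0).card := by
  unfold lm
  congr 1
  refine filter_congr fun j _ => ?_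
  have h0 := hmin j
  have h1 := hmin (j + 1)
  have e1 : F^[j + 2] m = F (F^[j + 1] m) := Function.iterate_succ_apply' F (j + 1) m
  have e0 : F^[j + 1] m = F (F^[j] m) := Function.iterate_succ_apply' F j m
  rw [e1, e0]
  rw [e0] at h1
  set x := F^[j] m
  set y := F x with hy
  have hx2 : 2 ≤ x := hm0.trans h0
  have hy2 : 2 ≤ y := hm0.trans h1
  constructor
  · rintro ⟨a, b⟩
    constructor
    · by_contra hc
      have := chb_up x hx2 hc
      omega
    · intro hc
      have := (chb_dn y hc).1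
      omega
  · rintro ⟨a, b⟩
    have h3 := (chb_dn x a).1
    have h4 := chb_up y hy2 b
    constructor <;> omega

theorem CHB_thm : CHBStmt := by
  intro m0 k K hm0 _ hper hmin hK
  have h := chb_ind m0 k hm0 hper hmin k le_rfl
  rw [Nat.sub_self] at h
  have hup0 : m0 % 3 ≠ 0 := by
    intro h
    have h1 := (chb_dn m0 h).1
    have h2 := hmin 1
    simp only [Function.iterate_one] at h2
    omega
  obtain ⟨-, h2⟩ := h.1 (by simpa using hup0)
  rw [chb_lm m0 k m0 hm0 hmin] at hK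
  rw [← range_eq_Ico, ← card_filter, ← card_filter] at h2
  unfold dnc
  refine h2.trans ?_
  refine mul_le_mul_of_nonneg_right ?_ (Real.log_nonneg (by exact_mod_cast (show 1 ≤ m0 by omega)))
  refine sum_le_sum_of_subset_of_nonneg ?_ fun i _ _ => by positivity
  exact range_subset_range.2 hK

end Pool.STN.H14
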