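import Pool.Agent.H78.STN.Stmts3

/-! Row CKK of the board sto: the least element is at most `275001`. -/

set_option autoImplicit false

open Finset Pool.Agent.H40.COL

namespace Pool.STN

theorem ckk_log (n : ℕ) (x : ℝ) (hx : 0 < x) (h : x ≤ (27 / 10 : ℝ) ^ n) : Real.log x ≤ n := by
  rw [Real.log_le_iff_le_exp hx]
  refine h.trans ?_
  rw [← Real.exp_one_pow]
  refine pow_le_pow_left₀ (by norm_num) ?_ n
  have := Real.exp_one_gt_d9
  linarith

theorem ckk_log43 : (27 / 100 : ℝ) ≤ 2 * Real.log 2 - Real.log 3 := by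
  have h1 : (27 : ℝ) ≤ Real.log ((4 / 3) ^ 100) := by
    rw [Real.le_log_iff_exp_le (by positivity)]
    rw [show (27 : ℝ) = ((27 : ℕ) : ℝ) * 1 by norm_num, Real.exp_nat_mul]
    have h2 := Real.exp_one_lt_d9
    refine (pow_le_pow_left₀ (Real.exp_pos 1).le h2.le 27).trans ?_
    norm_num
  rw [Real.log_pow, Real.log_div (by norm_num) (by norm_num), show (4 : ℝ) = 2 ^ 2 by norm_num,
    Real.log_pow] at h1
  push_cast at h1
  linarith

theorem CKK_thm (h1 : CNVStmt) (h2 : CW2Stmt) (h3 : CW3Stmt) (h4 : BGKStmt) : CKKStmt := by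
  intro k U m0 hk hU hm hlog hL
  by_contra hbig
  push Not at hbig
  have hbR : (275001 : ℝ) < (m0 : ℝ) := by exact_mod_cast hbig
  have hmR : (2 : ℝ) ≤ (m0 : ℝ) := by exact_mod_cast hm
  have hm1 : 0 < (m0 : ℝ) - 1 := by linarith
  have hm0 : 0 < (m0 : ℝ) := by linarith
  have hk1 : k < 2500000 := by
    by_contra hc
    exact h4 k U m0 hU (not_lt.1 hc) hm hlog hL
  have h11 : 11 / ((m0 : ℝ) - 1) ≤ 1 := by
    rw [div_le_one hm1]
    linarith
  have hkl : (k : ℝ) * (27 / 100) ≤ 292 * Real.log m0 + 1 := by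
    have e1 := (abs_le.1 hL).2
    rw [Nat.cast_sub hU] at hlog
    push_cast at e1
    have e2 : (k : ℝ) * (27 / 100) ≤ (k : ℝ) * (2 * Real.log 2 - Real.log 3) :=
      mul_le_mul_of_nonneg_left ckk_log43 (Nat.cast_nonneg k)
    nlinarith
  rw [abs_sub_comm] at hL
  have key : ∀ δ : ℝ, δ ≤ |(k : ℝ) * Real.log 3 - ((k + U : ℕ) : ℝ) * Real.log 2| →
      δ * ((m0 : ℝ) - 1) ≤ 11 := by
    intro δ hδ
    have := hδ.trans hL
    rwa [le_div_iff₀ hm1] at this
  have e1 := key _ (h3 k (k + U) hk hk1)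
  have hk2 : k < 31867 := by
    have h5 : Real.log m0 ≤ ((20 : ℕ) : ℝ) := by
      refine ckk_log 20 _ hm0 ?_
      have : (m0 : ℝ) ≤ 183333335 := by linarith
      refine this.trans ?_
      norm_num
    have h6 : (k : ℝ) < 31867 := by
      push_cast at h5
      linarith
    exact_mod_cast h6
  have e2 := key _ (h2 k (k + U) hk hk2)
  have hk3 : k < 15601 := by
    have h5 : Real.log m0 ≤ ((14 : ℕ) : ℝ) := by
      refine ckk_log 14 _ hm0 ?_
      have : (m0 : ℝ) ≤ 611113 := by linarith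
      refine this.trans ?_
      norm_num
    have h6 : (k : ℝ) < 15601 := by
      push_cast at h5
      linarith
    exact_mod_cast h6
  have e3 := key _ (h1 k (k + U) hk hk3)
  linarith

end Pool.STN
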