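import Pool.Agent.H78.STN.Stmts

/-!
# Board STO, row CW3 (backup; the statement is written out)
-/

set_option autoImplicit false

namespace Pool.STN.H14

theorem cw3_pow1 : Nat.ble (2 ^ 176251 * 1000000) (3 ^ 111202 * 999997) = true := by
  decide +kernel

theorem cw3_pow2 : Nat.ble (3 ^ 190537 * 100000000) (2 ^ 301994 * 99999994) = true := by
  decide +kernel

theorem cw3_pow3 : Nat.ble (2 ^ 301994 * 9999999) (3 ^ 190537 * 10000000) = true := by
  decide +kernel

lemma cw3_log (a b u v c d : ℕ) (hu : 0 < u) (hv : 0 < v) (hc : 0 < c) (hd : 0 < d)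
    (h : Nat.ble (u ^ a * c) (v ^ b * d) = true) :
    (a : ℝ) * Real.log u + Real.log c ≤ (b : ℝ) * Real.log v + Real.log d := by
  have h1 := Nat.le_of_ble_eq_true h
  have hu' : (0 : ℝ) < u := by exact_mod_cast hu
  have hv' : (0 : ℝ) < v := by exact_mod_cast hv
  have hc' : (0 : ℝ) < c := by exact_mod_cast hc
  have hd' : (0 : ℝ) < d := by exact_mod_cast hd
  have h2 : ((u : ℝ) ^ a) * c ≤ (v : ℝ) ^ b * d := by exact_mod_cast h1
  have h3 := Real.log_le_log (by positivity) h2
  rw [Real.log_mul (by positivity) (by positivity), Real.log_mul (by positivity) (by positivity),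
    Real.log_pow, Real.log_pow] at h3
  exact h3

set_option exponentiation.threshold 400000 in
lemma cw3_A : 3 / 1000000 ≤ (111202 : ℝ) * Real.log 3 - 176251 * Real.log 2 := by
  have h := cw3_log 176251 111202 2 3 1000000 999997 (by norm_num) (by norm_num) (by norm_num)
    (by norm_num) cw3_pow1
  push_cast at h
  have h3 : Real.log 1000000 - Real.log 999997 = - Real.log (999997 / 1000000) := by
    rw [Real.log_div (by norm_num) (by norm_num)]
    ring
  have h4 : Real.log (999997 / 1000000) ≤ 999997 / 1000000 - 1 :=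
    Real.log_le_sub_one_of_pos (by norm_num)
  linarith

set_option exponentiation.threshold 400000 in
lemma cw3_B : (190537 : ℝ) * Real.log 3 - 301994 * Real.log 2 ≤ - (6 / 100000000) := by
  have h := cw3_log 190537 301994 3 2 100000000 99999994 (by norm_num) (by norm_num) (by norm_num)
    (by norm_num) cw3_pow2
  push_cast at h
  have h3 : Real.log 99999994 - Real.log 100000000 = Real.log (99999994 / 100000000) := by
    rw [Real.log_div (by norm_num) (by norm_num)]
  have h4 : Real.log (99999994 / 100000000) ≤ 99999994 / 100000000 - 1 :=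
    Real.log_le_sub_one_of_pos (by norm_num)
  linarith

set_option exponentiation.threshold 400000 in
lemma cw3_C : - (1 / 9999999) ≤ (190537 : ℝ) * Real.log 3 - 301994 * Real.log 2 := by
  have h := cw3_log 301994 190537 2 3 9999999 10000000 (by norm_num) (by norm_num) (by norm_num)
    (by norm_num) cw3_pow3
  push_cast at h
  have h3 : Real.log 10000000 - Real.log 9999999 = Real.log (10000000 / 9999999) := by
    rw [Real.log_div (by norm_num) (by norm_num)]
  have h4 : Real.log (10000000 / 9999999) ≤ 10000000 / 9999999 - 1 :=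
    Real.log_le_sub_one_of_pos (by norm_num)
  linarith

theorem CW3_thm : ∀ k y : ℕ, 1 ≤ k → k < 2500000 →
    6 / 100000000 ≤ |(k : ℝ) * Real.log 3 - (y : ℝ) * Real.log 2| := by
  intro k y hk1 hk2
  have hA := cw3_A
  have hB := cw3_B
  have hC := cw3_C
  obtain ⟨A, hAdef⟩ : ∃ A : ℝ, A = (111202 : ℝ) * Real.log 3 - 176251 * Real.log 2 := ⟨_, rfl⟩
  obtain ⟨B, hBdef⟩ : ∃ B : ℝ, B = (190537 : ℝ) * Real.log 3 - 301994 * Real.log 2 := ⟨_, rfl⟩
  rw [← hAdef] at hA
  rw [← hBdef] at hB hC
  obtain ⟨x, hx⟩ : ∃ x : ℤ, x = 301994 * (k : ℤ) - 190537 * (y : ℤ) := ⟨_, rfl⟩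
  obtain ⟨z, hz⟩ : ∃ z : ℤ, z = 111202 * (y : ℤ) - 176251 * (k : ℤ) := ⟨_, rfl⟩
  have hkx : (k : ℤ) = 111202 * x + 190537 * z := by
    rw [hx, hz]
    ring
  have hform : (k : ℝ) * Real.log 3 - (y : ℝ) * Real.log 2 = (x : ℝ) * A + (z : ℝ) * B := by
    rw [hAdef, hBdef, hx, hz]
    push_cast
    ring
  rw [hform]
  clear hx hz hform hAdef hBdef
  rcases lt_trichotomy x 0 with hx0 | hx0 | hx0
  · have hz0 : 0 ≤ z := by omega
    have hxr : (x : ℝ) ≤ -1 := by
      have : x ≤ -1 := by omega
      exact_mod_cast this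
    have hzr : (0 : ℝ) ≤ (z : ℝ) := by exact_mod_cast hz0
    have hzB : (z : ℝ) * B ≤ 0 := mul_nonpos_of_nonneg_of_nonpos hzr (by linarith)
    have hxA : (x : ℝ) * A ≤ (-1) * A := mul_le_mul_of_nonneg_right hxr (by linarith)
    rw [abs_of_nonpos (by linarith)]
    linarith
  · have hz0 : 1 ≤ z := by omega
    have hzr : (1 : ℝ) ≤ (z : ℝ) := by exact_mod_cast hz0
    have hzB : (z : ℝ) * B ≤ 1 * B := mul_le_mul_of_nonpos_right hzr (by linarith)
    rw [hx0]
    simp only [Int.cast_zero, zero_mul, zero_add]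
    rw [abs_of_nonpos (by linarith)]
    linarith
  · have hz0 : z ≤ 13 := by omega
    have hxr : (1 : ℝ) ≤ (x : ℝ) := by
      have : 1 ≤ x := by omega
      exact_mod_cast this
    have hzr : (z : ℝ) ≤ 13 := by exact_mod_cast hz0
    have hzB : 13 * B ≤ (z : ℝ) * B := mul_le_mul_of_nonpos_right hzr (by linarith)
    have hxA : (1 : ℝ) * A ≤ (x : ℝ) * A := mul_le_mul_of_nonneg_right hxr (by linarith)
    rw [abs_of_nonneg (by linarith)]
    linarith

end Pool.STN.H14
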