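import Pool.Agent.H78.STN.Stmts

/-!
# Board STN, row ITP (backup)
-/

set_option autoImplicit false

open Polynomial

namespace Pool.STN.H14

lemma itp_dvd (r : ℚ) (e : ℕ) (g : ℚ[X]) :
    (X - C r) ^ e ∣ derivative ((X - C r) ^ (e + 1) * g) := by
  rw [derivative_mul, derivative_X_sub_C_pow, Nat.add_sub_cancel]
  refine dvd_add ?_ ?_
  · exact ⟨C ((e + 1 : ℕ) : ℚ) * g, by ring⟩
  · exact ⟨(X - C r) * derivative g, by ring⟩

lemma itp_cop (r t : ℚ) (h : r ≠ t) (d e : ℕ) : IsCoprime ((X - C r) ^ d) ((X - C t) ^ e) :=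
  IsCoprime.pow (isCoprime_X_sub_C_of_isUnit_sub (sub_ne_zero.2 h).isUnit)

lemma itp_gen (r1 r2 r3 : ℚ) (h12 : r1 ≠ r2) (h13 : r1 ≠ r3) (h23 : r2 ≠ r3) (e1 e2 e3 : ℕ) :
    ∃ H : ℚ[X], (X - C r1) ^ e1 * (X - C r2) ^ e2 * (X - C r3) ^ e3 ∣ derivative H ∧
      H.eval r1 = 0 ∧ H.eval r2 = 0 ∧ H.eval r3 = 1 := by
  have hc : IsCoprime ((X - C r1) ^ (e1 + 1) * (X - C r2) ^ (e2 + 1)) ((X - C r3) ^ (e3 + 1)) :=
    IsCoprime.mul_left (itp_cop r1 r3 h13 _ _) (itp_cop r2 r3 h23 _ _)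
  obtain ⟨a, b, hab⟩ := hc
  refine ⟨a * ((X - C r1) ^ (e1 + 1) * (X - C r2) ^ (e2 + 1)), ?_, ?_, ?_, ?_⟩
  · refine IsCoprime.mul_dvd (IsCoprime.mul_left (itp_cop r1 r3 h13 _ _) (itp_cop r2 r3 h23 _ _)) ?_ ?_
    · refine IsCoprime.mul_dvd (itp_cop r1 r2 h12 _ _) ?_ ?_
      · have := itp_dvd r1 e1 (a * (X - C r2) ^ (e2 + 1))
        convert this using 2
        ring
      · have := itp_dvd r2 e2 (a * (X - C r1) ^ (e1 + 1))
        convert this using 2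
        ring
    · have h1 : a * ((X - C r1) ^ (e1 + 1) * (X - C r2) ^ (e2 + 1)) =
          1 - (X - C r3) ^ (e3 + 1) * b := by
        rw [← hab]
        ring
      rw [h1, derivative_sub, derivative_one, zero_sub, dvd_neg]
      exact itp_dvd r3 e3 b
  · simp
  · simp
  · have h2 := congrArg (eval r3) hab
    simp only [eval_add, eval_mul, eval_pow, eval_sub, eval_X, eval_C, sub_self, eval_one,
      ne_eq, Nat.add_eq_zero_iff, one_ne_zero, and_false, not_false_eq_true, zero_pow, mul_zero,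
      add_zero] at h2
    simp only [eval_mul, eval_pow, eval_sub, eval_X, eval_C]
    exact h2

lemma itp_Pq (n : ℕ) : Pq ^ n =
    (X - C (6 : ℚ)) ^ (3 * n) * (X - C (8 : ℚ)) ^ (2 * n) * (X - C (9 : ℚ)) ^ n := by
  unfold Pq
  rw [mul_pow, mul_pow, ← pow_mul, ← pow_mul]

theorem ITP_thm : ITPStmt := by
  intro n u v huv
  by_cases hv : v = 0
  · subst hv
    have hu : u ≠ 0 := by
      rcases huv with h | h
      · exact h
      · exact absurd rfl h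
    obtain ⟨H, ⟨q, hq⟩, h8, h9, h6⟩ := itp_gen 8 9 6 (by norm_num) (by norm_num) (by norm_num)
      (2 * n) n (3 * n)
    refine ⟨H, q, ?_, ?_⟩
    · rw [hq, itp_Pq]
      ring
    · rw [h6, h8, h9]
      simpa using hu
  · obtain ⟨H, ⟨q, hq⟩, h6, h8, h9⟩ := itp_gen 6 8 9 (by norm_num) (by norm_num) (by norm_num)
      (3 * n) (2 * n) n
    refine ⟨H, q, ?_, ?_⟩
    · rw [hq, itp_Pq]
    · rw [h6, h8, h9]
      simpa using hv

end Pool.STN.H14
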