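import Pool.Agent.H78.STN.Stmts

/-!
# Board STN, row MUL (backup)
-/

set_option autoImplicit false

open Polynomial

namespace Pool.STN.H14

lemma mul_floor (n d : ℕ) (hd : 1 ≤ d) :
    3 * n / d + 2 * n / d + n / d + (if n < d ∧ d ≤ 6 * n then 1 else 0) ≤ 6 * n / d := by
  have h3 := Nat.div_add_mod (3 * n) d
  have h2 := Nat.div_add_mod (2 * n) d
  have h1 := Nat.div_add_mod n d
  have h6 := Nat.div_add_mod (6 * n) d
  have l3 := Nat.mod_lt (3 * n) hd
  have l2 := Nat.mod_lt (2 * n) hd
  have l1 := Nat.mod_lt n hd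
  have l6 := Nat.mod_lt (6 * n) hd
  set a := 3 * n / d
  set b := 2 * n / d
  set c := n / d
  set e := 6 * n / d
  set x := (3 * n) % d
  set y := (2 * n) % d
  set z := n % d
  set w := (6 * n) % d
  split_ifs with hc
  · obtain ⟨hc1, hc2⟩ := hc
    have hc0 : c = 0 := by
      rcases Nat.eq_zero_or_pos c with h | h
      · exact h
      · exfalso
        nlinarith
    have he1 : 1 ≤ e := by
      rcases Nat.eq_zero_or_pos e with h | h
      · exfalso
        rw [h] at h6
        simp at h6
        omega
      · exact h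
    by_contra hcon
    push Not at hcon
    rw [hc0] at hcon
    -- a + b + 1 > e, a ≤ 2, b ≤ 1
    have ha : a ≤ 2 := by
      by_contra h
      push Not at h
      nlinarith
    have hb : b ≤ 1 := by
      by_contra h
      push Not at h
      nlinarith
    have he5 : e ≤ 5 := by
      by_contra h
      push Not at h
      nlinarith
    interval_cases a <;> interval_cases b <;> interval_cases e <;> omega
  · rw [add_zero]
    by_contra hcon
    push Not at hcon
    have : d * (e + 1) ≤ d * (a + b + c) := Nat.mul_le_mul_left _ hcon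
    have h7 : d * (a + b + c) = d * a + d * b + d * c := by ring
    have h8 : d * (e + 1) = d * e + d := by ring
    omega

theorem MUL_thm : MULStmt := by
  intro n
  rcases Nat.eq_zero_or_pos n with rfl | hn
  · simp
  have hf3 := Nat.factorial_ne_zero (3 * n)
  have hf2 := Nat.factorial_ne_zero (2 * n)
  have hf1 := Nat.factorial_ne_zero n
  have hf6 := Nat.factorial_ne_zero (6 * n)
  have hl6 := Nat.lcmUpto_ne_zero (6 * n)
  have hl1 := Nat.lcmUpto_ne_zero n
  rw [← Nat.factorization_prime_le_iff_dvd (by positivity) (by positivity)]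
  intro p hp
  rw [Nat.factorization_mul hl6 (by positivity), Nat.factorization_mul (by positivity) hf1,
    Nat.factorization_mul hf3 hf2, Nat.factorization_mul hl1 hf6]
  simp only [Finsupp.add_apply]
  rw [Nat.factorization_lcmUpto _ hp, Nat.factorization_lcmUpto _ hp]
  have hb1 : Nat.log p n ≤ Nat.log p (6 * n) := Nat.log_mono_right (by omega)
  set B := Nat.log p (6 * n) + 1 with hB
  have fac : ∀ m : ℕ, m ≤ 6 * n → (m.factorial).factorization p = ∑ i ∈ Finset.Ico 1 B, m / p ^ i := by
    intro m hm
    exact Nat.factorization_factorial hp (lt_of_le_of_lt (Nat.log_mono_right hm) (Nat.lt_succ_self _))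
  rw [fac _ (by omega), fac _ (by omega), fac _ (by omega), fac _ (by omega)]
  have key : ∑ i ∈ Finset.Ico 1 B, (3 * n / p ^ i + 2 * n / p ^ i + n / p ^ i +
      (if n < p ^ i ∧ p ^ i ≤ 6 * n then 1 else 0)) ≤ ∑ i ∈ Finset.Ico 1 B, 6 * n / p ^ i :=
    Finset.sum_le_sum fun i _ => mul_floor n (p ^ i) (Nat.one_le_pow _ _ hp.pos)
  rw [Finset.sum_add_distrib, Finset.sum_add_distrib, Finset.sum_add_distrib] at key
  have hcount : Nat.log p (6 * n) - Nat.log p n ≤
      ∑ i ∈ Finset.Ico 1 B, (if n < p ^ i ∧ p ^ i ≤ 6 * n then 1 else 0) := by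
    rw [← Finset.card_filter]
    have hsub : Finset.Ico (Nat.log p n + 1) B ⊆
        (Finset.Ico 1 B).filter fun i => n < p ^ i ∧ p ^ i ≤ 6 * n := by
      intro i hi
      rw [Finset.mem_Ico] at hi
      rw [Finset.mem_filter, Finset.mem_Ico]
      refine ⟨⟨by omega, hi.2⟩, ?_, ?_⟩
      · exact Nat.lt_pow_of_log_lt hp.one_lt (by omega)
      · exact Nat.pow_le_of_le_log (by omega) (by omega)
    have := Finset.card_le_card hsub
    rw [Nat.card_Ico] at this
    omega
  omega

end Pool.STN.H14
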