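import Pool.Agent.H78.STN.Stmts

/-!
# Board STN, row NUP
-/

set_option autoImplicit false

open Polynomial

namespace Pool.STN

lemma nup_aux (hNRC : NRCStmt) (n : ℕ) (u v : ℤ)
    (h : ∀ i : ℕ, i ≤ 2 → Nn u v (Pq ^ n) (-3 * n - 1 + i) = 0) :
    ∀ k : ℕ, Nn u v (Pq ^ n) (-3 * n - 1 + k) = 0 := by
  intro k
  induction k using Nat.strong_induction_on with
  | _ k ih =>
    rcases Nat.lt_or_ge k 3 with hk | hk
    · exact h k (by omega)
    · obtain ⟨l, rfl⟩ := Nat.exists_eq_add_of_le hk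
      obtain ⟨w0, w1, w2, hw⟩ := hNRC n (-3 * n - 1 + l + 1)
      have h1 := hw u v
      have e0 : (-3 * (n : ℤ) - 1 + l + 1) - 1 = -3 * (n : ℤ) - 1 + (l : ℕ) := by ring
      have e1 : (-3 * (n : ℤ) - 1 + l + 1) = -3 * (n : ℤ) - 1 + ((l + 1 : ℕ) : ℤ) := by
        push_cast
        ring
      have e2 : (-3 * (n : ℤ) - 1 + l + 1) + 1 = -3 * (n : ℤ) - 1 + ((l + 2 : ℕ) : ℤ) := by
        push_cast
        ring
      have e3 : (-3 * (n : ℤ) - 1 + l + 1) + 2 = -3 * (n : ℤ) - 1 + ((3 + l : ℕ) : ℤ) := by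
        push_cast
        ring
      have i0 := ih l (by omega)
      have i1 := ih (l + 1) (by omega)
      have i2 := ih (l + 2) (by omega)
      rw [e0, e2, e3, i0, i2] at h1
      have i1' : Nn u v (Pq ^ n) (-3 * (n : ℤ) - 1 + l + 1) = 0 := by
        rw [e1]
        exact i1
      rw [i1'] at h1
      simp only [mul_zero, zero_add] at h1
      rcases mul_eq_zero.1 h1 with h2 | h2
      · exfalso
        have h3 : (0 : ℚ) ≤ n := Nat.cast_nonneg n
        have h4 : (0 : ℚ) ≤ l := Nat.cast_nonneg l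
        push_cast at h2
        linarith
      · exact h2

theorem NUP_thm (hNRC : NRCStmt) : NUPStmt := by
  intro n u v _ h s hs
  obtain ⟨k, hk⟩ := Int.eq_ofNat_of_zero_le (show 0 ≤ s - (-3 * n - 1) by omega)
  have h1 := nup_aux hNRC n u v h k
  have h2 : s = -3 * (n : ℤ) - 1 + (k : ℕ) := by omega
  rw [h2]
  exact h1

end Pool.STN
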