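import Pool.Agent.H78.STN.Stmts

/-!
# Board STN, row ONE (backup)
-/

set_option autoImplicit false

open Polynomial

namespace Pool.STN.H14

theorem ONE_thm (hASC : ASCStmt) (hDSC : DSCStmt) (hCSQ : CSQStmt) (hTRI : TRIStmt) : ONEStmt := by
  intro m k hm hk hper hlm
  obtain ⟨t2, tper, tdn, tup, tex, tnex⟩ := hTRI m k hm hk hper
  have hcard : ((Finset.range k).filter fun j =>
      F^[j] m % 3 = 0 ∧ ¬ F^[j + 1] m % 3 = 0).card ≤ 1 := by
    refine le_trans (le_of_eq ?_) hlm
    unfold lm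
    congr 1
    refine Finset.filter_congr fun j _ => ?_
    rw [← tdn j]
    have := tup (j + 1)
    rw [show j + 2 = j + 1 + 1 from rfl, this]
  obtain ⟨s, a, ha1, hak, hno, hyes⟩ := hCSQ (fun i => F^[i] m % 3 = 0) k hk
    (fun i => by rw [tper i]) tex tnex hcard
  have hit : ∀ i, F^[i] (F^[s] m) = F^[s + i] m := by
    intro i
    rw [← Function.iterate_add_apply, Nat.add_comm]
  have hit2 : ∀ i, F^[i] (F^[a] (F^[s] m)) = F^[s + (a + i)] m := by
    intro i
    rw [← Function.iterate_add_apply, hit, Nat.add_comm i a]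
  obtain ⟨t, ht1, htM, htm⟩ := hDSC (F^[a] (F^[s] m)) (k - a)
    (by rw [hit]; exact le_trans (by norm_num) (t2 _))
    (fun i hi => by
      rw [hit2]
      exact hyes (a + i) (by omega) (by omega))
  have hmm : F^[s] m = 2 ^ (k - a) * t := by
    rw [← htm, hit2, show a + (k - a) = k by omega, tper]
  have hasc := hASC (F^[s] m) a (le_trans (by norm_num) (t2 s)) ha1 (fun i hi => by
    rw [hit]
    exact hno i hi)
  refine ⟨s, a, k - a, t, ha1, by omega, by omega, ht1, hmm, ?_, ?_, ?_⟩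
  · intro i hi
    rw [← hmm, hit]
    exact hno i hi
  · rw [← hmm, htM]
  · rw [htM, hmm] at hasc
    refine lt_of_eq_of_lt ?_ hasc
    congr 1
    push_cast
    rw [show (4 : ℤ) = 2 ^ 2 by norm_num, ← pow_mul, pow_add, pow_add]
    ring

end Pool.STN.H14
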